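import Mathlib

set_option autoImplicit false
set_option linter.style.haveILetI false
set_option warn.classDefReducibility false

open Filter Topology
open scoped Pointwise

namespace Pool.Agent.Results.MP_59b615_al.NeverCoarselyIsomorphic

/-! ## Definitions used in the statement -/

/-- The positive integers all of whose prime factors lie in `Q`. -/
def Qstar (Q : Set ℕ) : Set ℕ := {m | 0 < m ∧ ∀ p : ℕ, p.Prime → p ∣ m → p ∈ Q}

/-- The residues of an integer modulo all `m ∈ Q*`. -/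
def phi (Q : Set ℕ) (x : ℤ) : ∀ m : Qstar Q, ZMod (m : ℕ) := fun m => (x : ZMod (m : ℕ))

/-- The profinite topology `τ_Q` on `ℤ`: induced from the product of the discrete rings `ℤ/m`. -/
def tauQ (Q : Set ℕ) : TopologicalSpace ℤ := TopologicalSpace.induced (phi Q) inferInstance

/-- The uniformly bounded families of the coarse structure `𝓔_Q`. -/
def BddQ (Q : Set ℕ) (𝒜 : Set (Set ℤ)) : Prop :=
  ∃ K : Set ℤ, @IsCompact ℤ (tauQ Q) K ∧ ∀ A ∈ 𝒜, ∃ k : ℤ, A ⊆ (fun x => k + x) '' K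

/-- The word distance: the least number of elements of `S ∪ -S` summing to `n - m`. -/
noncomputable def wordDist (S : Set ℤ) (n m : ℤ) : ℕ∞ :=
  ⨅ (l : List ℤ) (_ : (∀ x ∈ l, x ∈ S ∨ -x ∈ S) ∧ l.sum = n - m), (l.length : ℕ∞)

/-- The uniformly bounded families of the coarse structure of the word metric. -/
def BddS (S : Set ℤ) (𝒜 : Set (Set ℤ)) : Prop :=
  ∃ r : ℕ, ∀ A ∈ 𝒜, ∀ a ∈ A, ∀ b ∈ A, wordDist S a b ≤ r

/-- Controlled functions: uniformly bounded families go to uniformly bounded families. -/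
def Controlled (E E' : Set (Set ℤ) → Prop) (f : ℤ → ℤ) : Prop :=
  ∀ 𝒜, E 𝒜 → E' ((fun A => f '' A) '' 𝒜)

/-- Close functions. -/
def Close {X : Type} (E' : Set (Set ℤ) → Prop) (f f' : X → ℤ) : Prop :=
  E' (Set.range (fun x => {f x, f' x}))

/-- Coarse isomorphisms of coarse groups with underlying group `ℤ`. -/
def IsCoarseIso (E E' : Set (Set ℤ) → Prop) (f : ℤ → ℤ) : Prop :=
  Controlled E E' f ∧
  Close E' (fun p : ℤ × ℤ => f (p.1 + p.2)) (fun p : ℤ × ℤ => f p.1 + f p.2) ∧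
  ∃ g : ℤ → ℤ, Controlled E' E g ∧ Close E (fun x => g (f x)) (fun x => x) ∧
    Close E' (fun x => f (g x)) (fun x => x)

/-! ## The topology -/

section Top

variable (Q : Set ℕ)

/-- the residues as a homomorphism -/
def phiHom : ℤ →+ (∀ m : Qstar Q, ZMod (m : ℕ)) where
  toFun := phi Q
  map_zero' := by funext m; simp [phi]
  map_add' x y := by funext m; simp [phi]

theorem tau_group : @IsTopologicalAddGroup ℤ (tauQ Q) _ :=
  topologicalAddGroup_induced (phiHom Q)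

theorem tendsto_iff (u : ℕ → ℤ) (x : ℤ) :
    Tendsto u atTop (@nhds ℤ (tauQ Q) x) ↔
      ∀ m ∈ Qstar Q, ∀ᶠ n in atTop, (m : ℤ) ∣ u n - x := by
  letI := tauQ Q
  have hi : IsInducing (phi Q) := ⟨rfl⟩
  rw [hi.tendsto_nhds_iff, tendsto_pi_nhds]
  constructor
  · intro h m hm
    have h1 := h ⟨m, hm⟩
    rw [nhds_discrete, tendsto_pure] at h1
    filter_upwards [h1] with n hn
    have h2 : ((u n : ℤ) : ZMod m) = (x : ZMod m) := hn
    exact (ZMod.intCast_eq_intCast_iff_dvd_sub x (u n) m).1 h2.symm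
  · intro h m
    rw [nhds_discrete, tendsto_pure]
    filter_upwards [h m.1 m.2] with n hn
    exact ((ZMod.intCast_eq_intCast_iff_dvd_sub x (u n) m.1).2 hn).symm

theorem tau_t2 (hQ : Q.Nonempty) (hP : ∀ p ∈ Q, p.Prime) : @T2Space ℤ (tauQ Q) := by
  letI := tauQ Q
  have hinj : Function.Injective (phi Q) := by
    intro x y hxy
    obtain ⟨p, hp⟩ := hQ
    have hpp := hP p hp
    by_contra hne
    have h0 : 0 < (y - x).natAbs := Int.natAbs_pos.2 (sub_ne_zero.2 (Ne.symm hne))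
    have hm : p ^ (y - x).natAbs ∈ Qstar Q := by
      refine ⟨pow_pos hpp.pos _, fun q hq hqd => ?_⟩
      rw [(Nat.prime_dvd_prime_iff_eq hq hpp).1 (hq.dvd_of_dvd_pow hqd)]
      exact hp
    have h1 := congrFun hxy ⟨_, hm⟩
    have h2 := (ZMod.intCast_eq_intCast_iff_dvd_sub x y (p ^ (y - x).natAbs)).1 h1
    have h3 : p ^ (y - x).natAbs ≤ (y - x).natAbs := by
      apply Nat.le_of_dvd h0
      exact Int.natCast_dvd.1 h2
    exact absurd h3 (not_le.2 (Nat.lt_pow_self hpp.one_lt))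
  exact T2Space.of_injective_continuous hinj continuous_induced_dom

theorem fact_tendsto (N x : ℤ) :
    Tendsto (fun k : ℕ => x + N * (k.factorial : ℤ)) atTop (@nhds ℤ (tauQ Q) x) := by
  rw [tendsto_iff]
  intro m hm
  filter_upwards [eventually_ge_atTop m] with k hk
  rw [add_sub_cancel_left]
  exact Dvd.dvd.mul_left (by exact_mod_cast Nat.dvd_factorial hm.1 hk) _

/-- No compact set contains a nonzero subgroup. -/
theorem not_subset_compact (hQ : Q.Nonempty) (hP : ∀ p ∈ Q, p.Prime) (N : ℕ) (hN : 0 < N)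
    (K : Set ℤ) (hK : @IsCompact ℤ (tauQ Q) K) : ∃ x : ℤ, (N : ℤ) ∣ x ∧ x ∉ K := by
  letI := tauQ Q
  haveI := tau_group Q
  haveI := tau_t2 Q hQ hP
  by_contra hcon
  push Not at hcon
  set Y : Set ℤ := closure {x : ℤ | (N : ℤ) ∣ x} with hY
  have hYK : Y ⊆ K := closure_minimal hcon hK.isClosed
  have hYc : IsCompact Y := hK.of_isClosed_subset isClosed_closure hYK
  have hYtr : ∀ x ∈ Y, ∀ z : ℤ, x + N * z ∈ Y := by
    intro x hx z
    have h1 : Continuous (fun y : ℤ => y + N * z) := continuous_id.add continuous_const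
    have h2 : Set.MapsTo (fun y : ℤ => y + N * z) {x : ℤ | (N : ℤ) ∣ x} {x : ℤ | (N : ℤ) ∣ x} :=
      fun y hy => dvd_add hy (Dvd.intro _ rfl)
    exact map_mem_closure (f := fun y : ℤ => y + N * z) h1 hx h2
  haveI : CompactSpace Y := isCompact_iff_compactSpace.1 hYc
  haveI : Nonempty Y := ⟨⟨0, subset_closure (dvd_zero _)⟩⟩
  obtain ⟨y, hy⟩ := nonempty_interior_of_iUnion_of_closed (X := Y) (ι := Y)
    (f := fun y => {y}) (fun y => isClosed_singleton) (by ext y; simp)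
  obtain ⟨z, hz⟩ := hy
  have hzy : z = y := by
    have := interior_subset hz
    simpa using this
  subst hzy
  have hopen : ({z} : Set Y) ∈ 𝓝 z := mem_interior_iff_mem_nhds.1 hz
  have hlim : Tendsto (fun k : ℕ => (⟨z.1 + N * (k.factorial : ℤ), hYtr z.1 z.2 _⟩ : Y)) atTop
      (𝓝 z) := by
    rw [tendsto_subtype_rng]
    exact fact_tendsto Q N z.1
  obtain ⟨k, hk⟩ := (hlim.eventually hopen).exists
  have h1 := congrArg Subtype.val (Set.mem_singleton_iff.1 hk)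
  simp only at h1
  have h2 : (N : ℤ) * (k.factorial : ℤ) ≠ 0 := by
    have : 0 < N * k.factorial := Nat.mul_pos hN k.factorial_pos
    exact_mod_cast this.ne'
  exact h2 (by linarith)

/-- The space is not hemicompact. -/
theorem not_hemicompact (hQ : Q.Nonempty) (hP : ∀ p ∈ Q, p.Prime) (M : ℕ → Set ℤ)
    (hM : ∀ n, @IsCompact ℤ (tauQ Q) (M n)) :
    ∃ C : Set ℤ, @IsCompact ℤ (tauQ Q) C ∧ 0 ∈ C ∧ ∀ n, ¬ C ⊆ M n := by
  letI := tauQ Q
  have h1 : ∀ n : ℕ, ∃ x : ℤ, ((n.factorial : ℕ) : ℤ) ∣ x ∧ x ∉ M n := fun n =>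
    not_subset_compact Q hQ hP _ n.factorial_pos (M n) (hM n)
  choose x hx1 hx2 using h1
  have hlim : Tendsto x atTop (𝓝 (0 : ℤ)) := by
    rw [tendsto_iff]
    intro m hm
    filter_upwards [eventually_ge_atTop m] with k hk
    rw [sub_zero]
    exact dvd_trans (by exact_mod_cast Nat.dvd_factorial hm.1 hk) (hx1 k)
  refine ⟨insert 0 (Set.range x), hlim.isCompact_insert_range, Set.mem_insert _ _, fun n h => ?_⟩
  exact hx2 n (h (Set.mem_insert_of_mem _ ⟨n, rfl⟩))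

end Top

/-- No coarse isomorphism, indeed no pair of controlled maps with `g ∘ f` close to the identity. -/
theorem core (Q : Set ℕ) (hQ : Q.Nonempty) (hP : ∀ p ∈ Q, p.Prime) (S : Set ℤ) (f g : ℤ → ℤ)
    (hf : Controlled (BddQ Q) (BddS S) f) (hg : Controlled (BddS S) (BddQ Q) g)
    (hgf : Close (BddQ Q) (fun x => g (f x)) (fun x => x)) : False := by
  letI := tauQ Q
  haveI := tau_group Q
  -- the compact sets coming from the balls
  have h1 : ∀ n : ℕ, BddQ Q ((fun A => g '' A) ''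
      {A : Set ℤ | ∀ a ∈ A, ∀ b ∈ A, wordDist S a b ≤ n}) := fun n =>
    hg _ ⟨n, fun A hA => hA⟩
  choose K hK1 hK2 using h1
  obtain ⟨K₀, hK₀, hK₀'⟩ := hgf
  -- the countable family
  let M : ℕ → Set ℤ := fun n => ((K₀ + -K₀) + (K n + -K n)) + {g (f 0)}
  have hM : ∀ n, IsCompact (M n) := fun n =>
    ((hK₀.add hK₀.neg).add ((hK1 n).add (hK1 n).neg)).add isCompact_singleton
  obtain ⟨C, hC, hC0, hCM⟩ := not_hemicompact Q hQ hP M hM
  -- the image of `C` is bounded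
  obtain ⟨n, hn⟩ := hf {C} ⟨C, hC, by
    rintro A rfl
    exact ⟨0, fun x hx => ⟨x, hx, by simp⟩⟩⟩
  apply hCM n
  intro x hx
  have h2 : ∀ a ∈ f '' C, ∀ b ∈ f '' C, wordDist S a b ≤ n := hn (f '' C) ⟨C, rfl, rfl⟩
  obtain ⟨k, hk⟩ := hK2 n (g '' (f '' C)) ⟨f '' C, h2, rfl⟩
  obtain ⟨u, hu, hu'⟩ := hk ⟨f x, ⟨x, hx, rfl⟩, rfl⟩
  obtain ⟨v, hv, hv'⟩ := hk ⟨f 0, ⟨0, hC0, rfl⟩, rfl⟩
  obtain ⟨k', hk'⟩ := hK₀' {g (f x), x} ⟨x, rfl⟩
  obtain ⟨s, hs, hs'⟩ := hk' (Set.mem_insert_of_mem _ rfl)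
  obtain ⟨t, ht, ht'⟩ := hk' (Set.mem_insert _ _)
  simp only at hu' hv' hs' ht'
  refine ⟨(s + -t) + (u + -v), ⟨s + -t, ⟨s, hs, -t, by simpa using ht, rfl⟩, u + -v,
    ⟨u, hu, -v, by simpa using hv, rfl⟩, rfl⟩, g (f 0), rfl, ?_⟩
  show (s + -t) + (u + -v) + g (f 0) = x
  linarith

/-- **Answer to Q1: no.**  For every nonempty set of primes `Q` and every set `S` of integers, the
coarse groups `(ℤ, 𝓔_Q)` and `(ℤ, 𝓔_Cay(S))` are not coarsely isomorphic. -/
theorem result (Q : Set ℕ) (hQ : Q.Nonempty) (hP : ∀ p ∈ Q, p.Prime) (S : Set ℤ) :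
    ¬ ∃ f : ℤ → ℤ, IsCoarseIso (BddQ Q) (BddS S) f := by
  rintro ⟨f, hf, -, g, hg, hgf, -⟩
  exact core Q hQ hP S f g hf hg hgf

end Pool.Agent.Results.MP_59b615_al.NeverCoarselyIsomorphic
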